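import Pool.Agent.H93.PG.Targets
import Pool.Agent.H93.PF.All

/-!
# Rows ME3 and ZP3 of the board pgs_modules
-/

set_option autoImplicit false

open MeasureTheory Filter Topology Finset

namespace Pool.Agent.H32.PGS

open Pool.Agent.H93.PF Pool.Agent.H93.PG

theorem meas_nat {Y : Type} [MeasurableSpace Y] {f : ℕ → Y → ℕ} (hf : ∀ n, Measurable (f n)) {g : Y → ℕ}
    (hg : Measurable g) : Measurable (fun y => f (g y) y) := by
  have h1 : Measurable (fun p : ℕ × Y => f p.1 p.2) := measurable_from_prod_countable_right fun n => hf n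
  exact h1.comp (hg.prodMk measurable_id)

theorem meas_ij {Y : Type} [MeasurableSpace Y] (T : Y ≃ᵐ Y) (L : ℕ) (D : ℕ → Set Y)
    (hD : ∀ k, MeasurableSet (D k)) (j : ℕ) : Measurable (ij T L D j) := by
  classical
  have hM := Pool.Agent.H93.PF.All.r_MES Y T
  have hB := (hM.2 L D hD).1
  have hla := (hM.1 _ (hB (j + 1))).1
  have h1 : ∀ n : ℕ, Measurable fun y : Y =>
      ((range n).filter fun i : ℕ => zp T (-(i : ℤ)) y ∈ Bk T L D j).card := by
    intro n
    have e1 : (fun y : Y => ((range n).filter fun i : ℕ => zp T (-(i : ℤ)) y ∈ Bk T L D j).card) =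
        fun y => ∑ i ∈ range n, if zp T (-(i : ℤ)) y ∈ Bk T L D j then 1 else 0 := by
      funext y
      rw [card_filter]
    rw [e1]
    refine Finset.measurable_sum _ fun i _ => ?_
    exact Measurable.ite ((measurable_zp T (-(i : ℤ))) (hB j)) measurable_const measurable_const
  have h2 := meas_nat h1 hla
  have e2 : ij T L D j = fun y => ((range (la T (Bk T L D (j + 1)) y)).filter
      fun i : ℕ => zp T (-(i : ℤ)) y ∈ Bk T L D j).card := by
    funext y
    unfold ij
    congr
  rw [e2]
  exact h2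

theorem pf_ME3 : T_ME3 := by
  intro Y _ T L D hD
  have hco := ((Pool.Agent.H93.PF.All.r_MES Y T).2 L D hD).2
  have hlv := (Pool.Agent.H93.PF.All.r_ME2 Y T).2 L D hD
  have hij := meas_ij T L D hD
  have h1 : Measurable fun y => ij T L D (lv T L D y + 1) y :=
    meas_nat (f := fun n y => ij T L D (n + 1) y) (fun n => hij (n + 1)) hlv
  have h2 : Measurable fun y => ij T L D (lv T L D y + 2) y :=
    meas_nat (f := fun n y => ij T L D (n + 2) y) (fun n => hij (n + 2)) hlv
  have hmin : Measurable fun n : ℕ => min n 39 := measurable_of_countable _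
  have e : cc T L D = fun y => (co T L D y).1 + 3 * ((co T L D y).2 + 40 * (min (ij T L D (lv T L D y + 1) y) 39 +
    40 * (min (ij T L D (lv T L D y + 2) y) 39 + 40 * (min (ij T L D 0 y) 39 +
      40 * min (ij T L D 1 y) 39)))) := rfl
  rw [e]
  have m1 : Measurable fun y => (co T L D y).1 := measurable_fst.comp hco
  have m2 : Measurable fun y => (co T L D y).2 := measurable_snd.comp hco
  have m3 : Measurable fun y => min (ij T L D (lv T L D y + 1) y) 39 := hmin.comp h1
  have m4 : Measurable fun y => min (ij T L D (lv T L D y + 2) y) 39 := hmin.comp h2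
  have m5 : Measurable fun y => min (ij T L D 0 y) 39 := hmin.comp (hij 0)
  have m6 : Measurable fun y => min (ij T L D 1 y) 39 := hmin.comp (hij 1)
  exact m1.add ((m2.add ((m3.add ((m4.add ((m5.add (m6.const_mul 40)).const_mul 40)).const_mul 40)).const_mul
    40)).const_mul 3)

theorem pf_ZP3 (hPF3 : T_PF3) (hNLP : T_NLP) (hZT3 : T_ZT3) : T_ZP3 := by
  intro Y _ T d β plus c y hβ hy
  obtain ⟨h1, -⟩ := hZT3 Y T d (mm β plus) c y hy
  obtain ⟨h3, h4⟩ := hNLP Y T c.tc.L c.D c.mkD y hy
  exact hPF3 d β plus NC c.tc (ob T c.B0 y) (c.phi y) (fun n => c.cl (zp T n y)) hβ h1 h3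
    fun q a b hq hQ hc => h4 c.tc.kv q a b c.tc.kL hq hQ hc

end Pool.Agent.H32.PGS
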