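import Pool.Agent.H93.PG.Targets

/-!
# Row PA3 of the board pgs_modules: choice of the parameters
-/

set_option autoImplicit false

open MeasureTheory Filter Topology Finset

namespace Pool.Agent.H32.PGS

open Pool.Agent.H93.PF Pool.Agent.H93.PG

theorem pf_PA3 (hTCX : T_TCX) : T_PA3 := by
  intro d β plus hok h' η n₀ hh hη hlt
  have htop : 0 < topEnt (PFS d β plus) := by linarith
  obtain ⟨tc, hL, hQ⟩ := hTCX d β plus hok htop (h' + 2 * η) hlt NC (max n₀ ⌈3 / η⌉₊)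
  have hLn : n₀ ≤ tc.L := (le_max_left _ _).trans hL
  have hLη : 3 ≤ η * tc.L := by
    have h1 : 3 / η ≤ (⌈3 / η⌉₊ : ℝ) := Nat.le_ceil _
    have h2 : ((⌈3 / η⌉₊ : ℕ) : ℝ) ≤ tc.L := by exact_mod_cast (le_max_right _ _).trans hL
    have h3 : 3 / η ≤ tc.L := h1.trans h2
    rw [div_le_iff₀ hη] at h3
    linarith
  set A := Real.exp (η * tc.L) with hA
  set B := Real.exp (h' * (tc.L + 1)) with hB
  have hL0 : (0 : ℝ) ≤ tc.L := Nat.cast_nonneg _
  have hA1 : 1 ≤ A := Real.one_le_exp (by positivity)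
  have hB1 : 1 ≤ B := Real.one_le_exp (by positivity)
  refine ⟨tc, ⌈B⌉₊, ⌈A⌉₊, hLn, Nat.le_ceil _, Nat.le_ceil _, ?_⟩
  have h4 : (⌈A⌉₊ : ℝ) ≤ 2 * A := by
    have := (Nat.ceil_lt_add_one (by linarith : (0 : ℝ) ≤ A)).le
    linarith
  have h5 : (⌈B⌉₊ : ℝ) ≤ 2 * B := by
    have := (Nat.ceil_lt_add_one (by linarith : (0 : ℝ) ≤ B)).le
    linarith
  have h16 : 16 ≤ Real.exp (η * (tc.L + 1)) := by
    have h6 : Real.exp 3 ≤ Real.exp (η * (tc.L + 1)) := Real.exp_le_exp.mpr (by nlinarith)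
    have h7 : (16 : ℝ) ≤ Real.exp 3 := by
      have h8 : Real.exp 3 = Real.exp 1 ^ 3 := by
        rw [← Real.exp_nat_mul]
        norm_num
      have h9 : (2.7 : ℝ) ≤ Real.exp 1 := by
        have := Real.exp_one_gt_d9
        linarith
      rw [h8]
      calc (16 : ℝ) ≤ 2.7 ^ 3 := by norm_num
        _ ≤ _ := pow_le_pow_left₀ (by norm_num) h9 3
    linarith
  have h10 : 16 * (A * B) ≤ tc.Q := by
    refine le_trans ?_ hQ
    have e1 : Real.exp ((h' + 2 * η) * (tc.L + 1)) =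
        Real.exp (η * (tc.L + 1)) * (Real.exp (η * (tc.L + 1)) * B) := by
      rw [hB, ← Real.exp_add, ← Real.exp_add]
      congr 1
      ring
    rw [e1]
    have h11 : A ≤ Real.exp (η * (tc.L + 1)) := Real.exp_le_exp.mpr (by nlinarith)
    have h12 : A * B ≤ Real.exp (η * (tc.L + 1)) * B := mul_le_mul_of_nonneg_right h11 (by linarith)
    exact mul_le_mul h16 h12 (by positivity) (by positivity)
  have h13 : ((2 * ⌈A⌉₊ * (2 * ⌈B⌉₊) : ℕ) : ℝ) ≤ tc.Q := by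
    push_cast
    have h14 : (⌈A⌉₊ : ℝ) * ⌈B⌉₊ ≤ (2 * A) * (2 * B) := mul_le_mul h4 h5 (Nat.cast_nonneg _) (by linarith)
    linarith
  exact_mod_cast h13

end Pool.Agent.H32.PGS
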